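import Pool.Agent.Lib.TPC.AvgT

namespace Pool.Agent.TPC

open Pool.Agent.AC0IP

/-- `W` is invariant (reindex the symmetries by `σ ↦ σ * σ₀`). -/
theorem W_inv {k v : ℕ} (A : Set (Clause k v)) (x y : Clause k v) (σ₀ : Sym v) :
    W A (fun r => σ₀.1 (x r)) (fun r => σ₀.1 (y r)) = W A x y := by
  unfold W
  exact Nat.card_congr (Equiv.subtypeEquiv (Equiv.mulRight σ₀) fun σ => Iff.rfl)

/-- `W` does not depend on the pair of apart clauses (`sym_trans` on `Fin k ⊕ Fin k`). -/
theorem W_apart {k v : ℕ} (A : Set (Clause k v)) (x y x' y' : Clause k v) (h : Apart x y)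
    (h' : Apart x' y') : W A x y = W A x' y' := by
  obtain ⟨σ₀, hσ⟩ := sym_trans (Sum.elim x y) (Sum.elim x' y') h h'
  rw [← W_inv A x y σ₀]
  have h1 : (fun r => σ₀.1 (x r)) = x' := funext fun r => hσ (Sum.inl r)
  have h2 : (fun r => σ₀.1 (y r)) = y' := funext fun r => hσ (Sum.inr r)
  rw [h1, h2]

open Classical in
private theorem W_card {k v : ℕ} [Fintype (Sym v)] (A : Set (Clause k v)) (x y : Clause k v) :
    W A x y = (Finset.univ.filter fun σ : Sym v =>
      ¬ ((fun r => σ.1 (x r)) ∈ A ↔ (fun r => σ.1 (y r)) ∈ A)).card := by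
  unfold W
  rw [Nat.card_eq_fintype_card, Fintype.card_subtype]

private theorem apart_sym {k v : ℕ} (σ : Sym v) (x y : Clause k v) :
    Apart (fun r => σ.1 (x r)) (fun r => σ.1 (y r)) ↔ Apart x y := by
  have key : ∀ (τ : Sym v) (x y : Clause k v), Apart x y →
      Apart (fun r => τ.1 (x r)) (fun r => τ.1 (y r)) := by
    intro τ x y h
    have h1 := sym_inj τ (Sum.elim x y) h
    have h2 : (fun t : Fin k ⊕ Fin k => (Sum.elim (fun r => τ.1 (x r)) (fun r => τ.1 (y r)) t).1) =
        fun t => (τ.1 (Sum.elim x y t)).1 := by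
      funext t
      cases t <;> rfl
    show Function.Injective _
    rw [h2]
    exact h1
  constructor
  · intro h
    have h1 := key σ⁻¹ _ _ h
    have h2 : ∀ z : Clause k v, (fun r => (σ⁻¹ : Sym v).1 (σ.1 (z r))) = z := by
      intro z
      funext r
      exact σ.1.symm_apply_apply (z r)
    rwa [h2, h2] at h1
  · exact key σ x y

/-- Double counting over the apart pairs `p` and the symmetries `σ`: for an apart pair `x, y`,
`#(apart pairs) * W x y = #Sym * #(apart pairs on different sides)`; and `#(apart pairs)` is at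
most `N^2`. -/
theorem W_double {k v : ℕ} (A : Set (Clause k v)) (x y : Clause k v) (h : Apart x y) :
    Nat.card (Sym v) *
      {p : Clause k v × Clause k v | Apart p.1 p.2 ∧ ¬ (p.1 ∈ A ↔ p.2 ∈ A)}.ncard ≤
      (2 * v) ^ k * (2 * v) ^ k * W A x y := by
  classical
  have : Fintype (Sym v) := Fintype.ofFinite _
  have hN : Fintype.card (Clause k v × Clause k v) = (2 * v) ^ k * (2 * v) ^ k := by
    rw [Fintype.card_prod]
    have : Fintype.card (Clause k v) = (2 * v) ^ k := by
      simp [Clause, mul_comm]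
    rw [this]
  let Q : Sym v → Clause k v × Clause k v → Prop := fun σ p => Apart p.1 p.2 ∧
    ¬ ((fun r => σ.1 (p.1 r)) ∈ A ↔ (fun r => σ.1 (p.2 r)) ∈ A)
  have h1 : ∀ σ : Sym v,
      {p : Clause k v × Clause k v | Apart p.1 p.2 ∧ ¬ (p.1 ∈ A ↔ p.2 ∈ A)}.ncard =
        ∑ p : Clause k v × Clause k v, if Q σ p then 1 else 0 := by
    intro σ
    rw [← Finset.card_filter, ← Nat.card_coe_set_eq]
    have e : {p : Clause k v × Clause k v // Q σ p} ≃
        {p : Clause k v × Clause k v | Apart p.1 p.2 ∧ ¬ (p.1 ∈ A ↔ p.2 ∈ A)} :=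
      Equiv.subtypeEquiv
        (Equiv.prodCongr ((Equiv.refl (Fin k)).arrowCongr σ.1) ((Equiv.refl (Fin k)).arrowCongr σ.1))
        (fun p => by
          show (Apart p.1 p.2 ∧ ¬ ((fun r => σ.1 (p.1 r)) ∈ A ↔ (fun r => σ.1 (p.2 r)) ∈ A)) ↔
            (Apart (fun r => σ.1 (p.1 r)) (fun r => σ.1 (p.2 r)) ∧
              ¬ ((fun r => σ.1 (p.1 r)) ∈ A ↔ (fun r => σ.1 (p.2 r)) ∈ A))
          rw [apart_sym])
    rw [← Nat.card_congr e, Nat.card_eq_fintype_card, Fintype.card_subtype]
  have h2 : Nat.card (Sym v) *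
      {p : Clause k v × Clause k v | Apart p.1 p.2 ∧ ¬ (p.1 ∈ A ↔ p.2 ∈ A)}.ncard =
      ∑ σ : Sym v, ∑ p : Clause k v × Clause k v, if Q σ p then 1 else 0 := by
    rw [← Finset.sum_congr rfl fun σ _ => h1 σ, Finset.sum_const, Nat.card_eq_fintype_card,
      Finset.card_univ, smul_eq_mul]
  rw [h2, Finset.sum_comm]
  have h3 : ∀ p : Clause k v × Clause k v, (∑ σ : Sym v, if Q σ p then 1 else 0) ≤ W A x y := by
    intro p
    rw [← Finset.card_filter]
    by_cases hp : Apart p.1 p.2
    · rw [W_apart A x y p.1 p.2 h hp, W_card]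
      refine Finset.card_le_card fun σ hσ => ?_
      rw [Finset.mem_filter] at hσ ⊢
      exact ⟨Finset.mem_univ _, hσ.2.2⟩
    · have : (Finset.univ.filter fun σ : Sym v => Q σ p) = ∅ :=
        Finset.filter_eq_empty_iff.2 fun σ _ hσ => hp hσ.1
      rw [this, Finset.card_empty]
      exact Nat.zero_le _
  calc (∑ p : Clause k v × Clause k v, ∑ σ : Sym v, if Q σ p then 1 else 0)
      ≤ ∑ _p : Clause k v × Clause k v, W A x y := Finset.sum_le_sum fun p _ => h3 p
    _ = (2 * v) ^ k * (2 * v) ^ k * W A x y := by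
      rw [Finset.sum_const, Finset.card_univ, hN, smul_eq_mul]

/-- Hybrids: `W x y ≤ ∑ r, W h_r h_(r+1)`, where `h_r` agrees with `y` at the coordinates `< r`
and with `x` at the others. -/
theorem W_hybrid {k v : ℕ} (A : Set (Clause k v)) (x y : Clause k v) :
    W A x y ≤ ∑ r : Fin k, W A (fun j => if j.val < r.val then y j else x j)
      (fun j => if j.val < r.val + 1 then y j else x j) := by
  classical
  have : Fintype (Sym v) := Fintype.ofFinite _
  let hyb : ℕ → Clause k v := fun n j => if j.val < n then y j else x j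
  let P : Sym v → ℕ → Prop := fun σ n => (fun r => σ.1 (hyb n r)) ∈ A
  have h0 : hyb 0 = x := by
    funext j
    simp [hyb]
  have hk : hyb k = y := by
    funext j
    simp [hyb, j.2]
  have hW : ∀ n m : ℕ, W A (hyb n) (hyb m) =
      (Finset.univ.filter fun σ : Sym v => ¬ (P σ n ↔ P σ m)).card := fun n m => W_card A _ _
  have key : W A (hyb 0) (hyb k) ≤ ∑ r : Fin k, W A (hyb r.val) (hyb (r.val + 1)) := by
    have hsum : ∑ r : Fin k, W A (hyb r.val) (hyb (r.val + 1)) = ∑ r : Fin k,
        (Finset.univ.filter fun σ : Sym v => ¬ (P σ r.val ↔ P σ (r.val + 1))).card :=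
      Finset.sum_congr rfl fun r _ => hW r.val (r.val + 1)
    rw [hsum, hW 0 k]
    refine le_trans (Finset.card_le_card ?_) (Finset.card_biUnion_le (s := Finset.univ)
      (t := fun r : Fin k => Finset.univ.filter fun σ : Sym v =>
        ¬ (P σ r.val ↔ P σ (r.val + 1))))
    intro σ hσ
    rw [Finset.mem_filter] at hσ
    by_contra hcon
    have hcon' : ∀ r : Fin k, ¬ (σ ∈ Finset.univ.filter fun σ : Sym v =>
        ¬ (P σ r.val ↔ P σ (r.val + 1))) := fun r hr =>
      hcon (Finset.mem_biUnion.2 ⟨r, Finset.mem_univ _, hr⟩)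
    apply hσ.2
    have hstep : ∀ n, n ≤ k → (P σ 0 ↔ P σ n) := by
      intro n
      induction n with
      | zero => intro _; exact Iff.rfl
      | succ n ih =>
        intro hn
        have h1 := hcon' ⟨n, hn⟩
        have h2 : (P σ n ↔ P σ (n + 1)) := by
          by_contra h3
          exact h1 (Finset.mem_filter.2 ⟨Finset.mem_univ _, h3⟩)
        exact (ih (by omega)).trans h2
    exact hstep k le_rfl
  rw [h0, hk] at key
  exact key

end Pool.Agent.TPC
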