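import Pool.Agent.Lib.TPC.AvgC
import Pool.Agent.Lib.TPC.AvgH

namespace Pool.Agent.TPC

open Pool.Agent.AC0IP

/-- clauses that differ at most in the coordinate `r₀`, with `k + 1` different variables, have the
same `W` -/
theorem W_pair {k v : ℕ} (A : Set (Clause k v)) (r₀ : Fin k) (u u' w w' : Clause k v)
    (hu : ∀ r, r ≠ r₀ → u' r = u r) (hw : ∀ r, r ≠ r₀ → w' r = w r)
    (hu1 : Function.Injective (fun t : Option (Fin k) =>
      ((t.elim (u' r₀) u : Fin v × Bool)).1))
    (hw1 : Function.Injective (fun t : Option (Fin k) =>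
      ((t.elim (w' r₀) w : Fin v × Bool)).1)) : W A u u' = W A w w' := by
  obtain ⟨σ, hσ⟩ := sym_trans (fun t : Option (Fin k) => (t.elim (w' r₀) w : Fin v × Bool))
    (fun t : Option (Fin k) => (t.elim (u' r₀) u : Fin v × Bool)) hw1 hu1
  rw [← W_inv A w w' σ]
  have h1 : (fun r => σ.1 (w r)) = u := by
    funext r
    exact hσ (some r)
  have h2 : (fun r => σ.1 (w' r)) = u' := by
    funext r
    by_cases hr : r = r₀
    · subst hr
      exact hσ none
    · rw [hw r hr, hu r hr]
      exact hσ (some r)
  rw [h1, h2]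

theorem pos_comp {k v g : ℕ} (e : Vr k g → Fin v × Bool) (σ : Sym v) (r₀ : Fin k) (b : Bool)
    (τ : Fin k → Fin g) :
    pos (fun x => σ.1 (e x)) r₀ b τ = fun r => σ.1 (pos e r₀ b τ r) := by
  funext r
  unfold pos
  split_ifs <;> rfl

/-- There are a group `r₀` and names `e` of the literals such that for `1 / (2 c k)` of the tuples
the clause and its variant with the copy lie on different sides. Base names `e₀` with different
variables exist since `|Vr k g| = (2k+1) g + k ≤ v`. Take an apart pair `x, y` (`2 k ≤ v`); by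
`W_double`, `apart_count`: `#Sym ≤ 2 c W x y`; by `W_hybrid` some `r₀` has
`#Sym ≤ 2 c k * W h_r h_(r+1)`; by `sym_trans`, `W_inv` this is
`W (pos e₀ r₀ false τ) (pos e₀ r₀ true τ)` for every `τ` (`k + 1` different variables); average
over `σ : Sym v` of the number of the `τ` for `e = σ ∘ e₀` (`sym_inj`). -/
theorem avg {k v g c : ℕ} (hk : 1 ≤ k) (hc : 2 ≤ c) (hv : 4 * c * k ^ 2 ≤ v)
    (hg : (2 * k + 1) * g + k ≤ v)
    (A : Set (Clause k v)) (h1 : (2 * v) ^ k ≤ c * A.ncard) (h2 : (2 * v) ^ k ≤ c * Aᶜ.ncard) :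
    ∃ (r₀ : Fin k) (e : Vr k g → Fin v × Bool), Function.Injective (fun x => (e x).1) ∧
      g ^ k ≤ 2 * c * k *
        {τ : Fin k → Fin g | ¬ (pos e r₀ false τ ∈ A ↔ pos e r₀ true τ ∈ A)}.ncard := by
  classical
  have hv0 : 0 < v := by
    have : 0 < 4 * c * k ^ 2 := by positivity
    omega
  -- base names
  obtain ⟨β⟩ : Nonempty (Vr k g ↪ Fin v) := by
    apply Function.Embedding.nonempty_of_card_le
    simp only [Fintype.card_sum, Fintype.card_prod, Fintype.card_fin]
    nlinarith
  let e₀ : Vr k g → Fin v × Bool := fun x => (β x, true)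
  have he₀ : Function.Injective (fun x => (e₀ x).1) := β.injective
  -- an apart pair
  obtain ⟨ι⟩ : Nonempty (Fin k ⊕ Fin k ↪ Fin v) := by
    apply Function.Embedding.nonempty_of_card_le
    simp only [Fintype.card_sum, Fintype.card_fin]
    nlinarith [Nat.mul_le_mul hc (Nat.pow_le_pow_left hk 2)]
  let x : Clause k v := fun r => (ι (Sum.inl r), true)
  let y : Clause k v := fun r => (ι (Sum.inr r), true)
  have hxy : Apart x y := by
    intro s t hst
    apply ι.injective
    cases s <;> cases t <;> exact hst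
  set D := {p : Clause k v × Clause k v | Apart p.1 p.2 ∧ ¬ (p.1 ∈ A ↔ p.2 ∈ A)}.ncard with hD
  have hN : 0 < (2 * v) ^ k * (2 * v) ^ k := by positivity
  have h3 : Nat.card (Sym v) ≤ 2 * c * W A x y := by
    have h4 := W_double A x y hxy
    have h5 := apart_count hk hc hv A h1 h2
    rw [← hD] at h4 h5
    have h6 : Nat.card (Sym v) * ((2 * v) ^ k * (2 * v) ^ k) ≤
        (2 * c * W A x y) * ((2 * v) ^ k * (2 * v) ^ k) := by
      calc Nat.card (Sym v) * ((2 * v) ^ k * (2 * v) ^ k)
          ≤ Nat.card (Sym v) * (2 * c * D) := Nat.mul_le_mul le_rfl h5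
        _ = 2 * c * (Nat.card (Sym v) * D) := by ring
        _ ≤ 2 * c * ((2 * v) ^ k * (2 * v) ^ k * W A x y) := Nat.mul_le_mul le_rfl h4
        _ = _ := by ring
    exact Nat.le_of_mul_le_mul_right h6 hN
  -- the hybrids
  let h : ℕ → Clause k v := fun n j => if j.val < n then y j else x j
  have h4 : W A x y ≤ ∑ r : Fin k, W A (h r.val) (h (r.val + 1)) := W_hybrid A x y
  obtain ⟨r₀, -, hr₀⟩ := Finset.exists_max_image (Finset.univ : Finset (Fin k))
    (fun r => W A (h r.val) (h (r.val + 1))) ⟨⟨0, by omega⟩, Finset.mem_univ _⟩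
  have h5 : W A x y ≤ k * W A (h r₀.val) (h (r₀.val + 1)) := by
    refine h4.trans ?_
    have := Finset.sum_le_card_nsmul Finset.univ
      (fun r : Fin k => W A (h r.val) (h (r.val + 1))) _ (fun r hr => hr₀ r hr)
    simpa using this
  -- all the pairs of positions
  have h6 : ∀ τ : Fin k → Fin g, W A (pos e₀ r₀ false τ) (pos e₀ r₀ true τ) =
      W A (h r₀.val) (h (r₀.val + 1)) := by
    intro τ
    refine W_pair A r₀ _ _ _ _ ?_ ?_ ?_ ?_
    · intro r hr
      simp [pos, hr]
    · intro r hr
      have hr' : r.val ≠ r₀.val := fun h => hr (Fin.ext h)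
      simp only [h]
      by_cases hlt : r.val < r₀.val
      · rw [if_pos hlt, if_pos (by omega)]
      · rw [if_neg hlt, if_neg (by omega)]
    · have e1 : ∀ r, pos e₀ r₀ false τ r = e₀ (.inl (r, τ r)) := by
        intro r
        simp [pos]
      have e2 : pos e₀ r₀ true τ r₀ = e₀ (.inr (.inl (τ r₀))) := by
        simp [pos]
      intro s t hst
      cases s with
      | none =>
        cases t with
        | none => rfl
        | some t =>
          have h7 : (e₀ (.inr (.inl (τ r₀)))).1 = (e₀ (.inl (t, τ t))).1 := by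
            rw [← e2, ← e1]
            exact hst
          exact absurd (he₀ h7) (by simp)
      | some s =>
        cases t with
        | none =>
          have h7 : (e₀ (.inl (s, τ s))).1 = (e₀ (.inr (.inl (τ r₀)))).1 := by
            rw [← e2, ← e1]
            exact hst
          exact absurd (he₀ h7) (by simp)
        | some t =>
          have h7 : (e₀ (.inl (s, τ s))).1 = (e₀ (.inl (t, τ t))).1 := by
            rw [← e1, ← e1]
            exact hst
          have h8 := he₀ h7
          simp only [Sum.inl.injEq, Prod.mk.injEq] at h8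
          rw [h8.1]
    · have e1 : ∀ r : Fin k, (h r₀.val r).1 =
          ι (if r.val < r₀.val then Sum.inr r else Sum.inl r) := by
        intro r
        simp only [h]
        split_ifs <;> rfl
      have e2 : (h (r₀.val + 1) r₀).1 = ι (Sum.inr r₀) := by
        simp [h, y]
      intro s t hst
      cases s with
      | none =>
        cases t with
        | none => rfl
        | some t =>
          have h7 : ι (Sum.inr r₀) = ι (if t.val < r₀.val then Sum.inr t else Sum.inl t) := by
            rw [← e2, ← e1]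
            exact hst
          have h8 := ι.injective h7
          split_ifs at h8 with hlt
          · rw [Sum.inr.injEq] at h8
            rw [← h8] at hlt
            omega
      | some s =>
        cases t with
        | none =>
          have h7 : ι (if s.val < r₀.val then Sum.inr s else Sum.inl s) = ι (Sum.inr r₀) := by
            rw [← e2, ← e1]
            exact hst
          have h8 := ι.injective h7
          split_ifs at h8 with hlt
          · rw [Sum.inr.injEq] at h8
            rw [h8] at hlt
            omega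
        | some t =>
          have h7 : ι (if s.val < r₀.val then Sum.inr s else Sum.inl s) =
              ι (if t.val < r₀.val then Sum.inr t else Sum.inl t) := by
            rw [← e1, ← e1]
            exact hst
          have h8 := ι.injective h7
          split_ifs at h8 with hs ht ht
          · rw [Sum.inr.injEq] at h8
            rw [h8]
          · rw [Sum.inl.injEq] at h8
            rw [h8]
  -- the average
  have : Fintype (Sym v) := Fintype.ofFinite _
  set w := W A (h r₀.val) (h (r₀.val + 1)) with hw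
  have h7 : ∑ σ : Sym v, {τ : Fin k → Fin g | ¬ (pos (fun x => σ.1 (e₀ x)) r₀ false τ ∈ A ↔
      pos (fun x => σ.1 (e₀ x)) r₀ true τ ∈ A)}.ncard = g ^ k * w := by
    have h8 : ∀ σ : Sym v, {τ : Fin k → Fin g | ¬ (pos (fun x => σ.1 (e₀ x)) r₀ false τ ∈ A ↔
        pos (fun x => σ.1 (e₀ x)) r₀ true τ ∈ A)}.ncard =
        (Finset.univ.filter (fun τ : Fin k → Fin g =>
          ¬ ((fun r => σ.1 (pos e₀ r₀ false τ r)) ∈ A ↔
            (fun r => σ.1 (pos e₀ r₀ true τ r)) ∈ A))).card := by
      intro σ
      rw [← Set.ncard_coe_finset]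
      congr 1
      ext τ
      simp only [Set.mem_ofPred_eq, Finset.coe_filter, Finset.mem_univ, true_and, pos_comp]
    have h9 : ∀ τ : Fin k → Fin g, (Finset.univ.filter (fun σ : Sym v =>
          ¬ ((fun r => σ.1 (pos e₀ r₀ false τ r)) ∈ A ↔
            (fun r => σ.1 (pos e₀ r₀ true τ r)) ∈ A))).card = w := by
      intro τ
      rw [← h6 τ, W, Nat.card_eq_fintype_card, Fintype.card_subtype]
    rw [Finset.sum_congr rfl (fun σ _ => h8 σ)]
    simp only [Finset.card_filter]
    rw [Finset.sum_comm]
    simp only [← Finset.card_filter]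
    rw [Finset.sum_congr rfl (fun τ _ => h9 τ)]
    simp
  by_contra hcon
  have h8 : ∀ σ : Sym v, 2 * c * k * {τ : Fin k → Fin g |
      ¬ (pos (fun x => σ.1 (e₀ x)) r₀ false τ ∈ A ↔
      pos (fun x => σ.1 (e₀ x)) r₀ true τ ∈ A)}.ncard < g ^ k := by
    intro σ
    by_contra hlt
    exact hcon ⟨r₀, fun x => σ.1 (e₀ x), sym_inj σ e₀ he₀, not_lt.1 hlt⟩
  have h9 := Finset.sum_lt_sum_of_nonempty (s := (Finset.univ : Finset (Sym v)))
    ⟨1, Finset.mem_univ _⟩ (fun σ _ => h8 σ)
  rw [← Finset.mul_sum, h7] at h9
  simp only [Finset.sum_const, Finset.card_univ, smul_eq_mul] at h9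
  rw [Nat.card_eq_fintype_card] at h3
  have h10 : Fintype.card (Sym v) * g ^ k ≤ 2 * c * k * (g ^ k * w) := by
    calc Fintype.card (Sym v) * g ^ k ≤ (2 * c * W A x y) * g ^ k := Nat.mul_le_mul h3 le_rfl
      _ ≤ (2 * c * (k * w)) * g ^ k := Nat.mul_le_mul (Nat.mul_le_mul le_rfl h5) le_rfl
      _ = 2 * c * k * (g ^ k * w) := by ring
  exact absurd h9 (not_lt.2 h10)

end Pool.Agent.TPC
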