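import Pool.Agent.Lib.TPC.Defs

namespace Pool.Agent.TPC

open Pool.Agent.AC0IP

private theorem two_same {I : Type} [Fintype I] [DecidableEq I] {v : ℕ} {s t : I} (hst : s ≠ t) :
    v * (Finset.univ.filter fun f : I → Fin v × Bool => (f s).1 = (f t).1).card
      = Fintype.card (I → Fin v × Bool) := by
  have h : (Finset.univ : Finset (I → Fin v × Bool)).card
      = ((Finset.univ : Finset (Fin v)) ×ˢ
        (Finset.univ.filter fun f : I → Fin v × Bool => (f s).1 = (f t).1)).card := by
    symm
    apply Finset.card_bij (fun q _ => Function.update q.2 t (q.1, (q.2 t).2))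
    · intro q _
      exact Finset.mem_univ _
    · rintro ⟨i, f⟩ hf ⟨j, g⟩ hg h
      simp only [Finset.mem_product, Finset.mem_filter, Finset.mem_univ, true_and] at hf hg h
      have h1 : ∀ r, r ≠ t → f r = g r := by
        intro r hr
        have := congrFun h r
        rwa [Function.update_of_ne hr, Function.update_of_ne hr] at this
      have h2 := congrFun h t
      rw [Function.update_self, Function.update_self, Prod.mk.injEq] at h2
      have h3 : f t = g t := by
        refine Prod.ext ?_ h2.2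
        rw [← hf, ← hg, h1 s hst]
      refine Prod.ext h2.1 (funext fun r => ?_)
      by_cases hr : r = t
      · rw [hr]; exact h3
      · exact h1 r hr
    · intro f _
      refine ⟨((f t).1, Function.update f t ((f s).1, (f t).2)), ?_, ?_⟩
      · simp only [Finset.mem_product, Finset.mem_filter, Finset.mem_univ, true_and]
        rw [Function.update_self, Function.update_of_ne hst]
      · show Function.update (Function.update f t ((f s).1, (f t).2)) t
          ((f t).1, (Function.update f t ((f s).1, (f t).2) t).2) = f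
        rw [Function.update_self, Function.update_idem, Function.update_eq_self]
  rw [Finset.card_product, Finset.card_univ, Finset.card_univ, Fintype.card_fin] at h
  exact h.symm

private theorem pairs_le (k : ℕ) : 2 * (Finset.univ.filter fun q : (Fin k ⊕ Fin k) × (Fin k ⊕ Fin k) =>
    finSumFinEquiv q.1 < finSumFinEquiv q.2).card ≤ (2 * k) * (2 * k) := by
  classical
  set P := Finset.univ.filter fun q : (Fin k ⊕ Fin k) × (Fin k ⊕ Fin k) =>
    finSumFinEquiv q.1 < finSumFinEquiv q.2 with hP
  set Q := Finset.univ.filter fun q : (Fin k ⊕ Fin k) × (Fin k ⊕ Fin k) =>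
    finSumFinEquiv q.2 < finSumFinEquiv q.1 with hQ
  have h1 : P.card = Q.card := by
    apply Finset.card_bij (fun q _ => (q.2, q.1))
    · intro q hq
      simp only [hP, hQ, Finset.mem_filter, Finset.mem_univ, true_and] at hq ⊢
      exact hq
    · rintro ⟨a, b⟩ _ ⟨c, d⟩ _ h
      simp only [Prod.mk.injEq] at h ⊢
      exact ⟨h.2, h.1⟩
    · rintro ⟨a, b⟩ hq
      refine ⟨(b, a), ?_, rfl⟩
      simp only [hP, hQ, Finset.mem_filter, Finset.mem_univ, true_and] at hq ⊢
      exact hq
  have h2 : Disjoint P Q := by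
    rw [Finset.disjoint_left]
    intro q hq hq'
    simp only [hP, hQ, Finset.mem_filter, Finset.mem_univ, true_and] at hq hq'
    exact absurd hq (not_lt.2 hq'.le)
  have h3 : (P ∪ Q).card ≤ Fintype.card ((Fin k ⊕ Fin k) × (Fin k ⊕ Fin k)) :=
    Finset.card_le_univ _
  rw [Finset.card_union_of_disjoint h2, ← h1, Fintype.card_prod, Fintype.card_sum,
    Fintype.card_fin] at h3
  calc 2 * P.card = P.card + P.card := by ring
    _ ≤ (k + k) * (k + k) := h3
    _ = (2 * k) * (2 * k) := by ring

private theorem not_apart (k v : ℕ) [DecidablePred fun p : Clause k v × Clause k v => ¬ Apart p.1 p.2] :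
    v * (Finset.univ.filter fun p : Clause k v × Clause k v => ¬ Apart p.1 p.2).card
      ≤ (2 * k ^ 2) * ((2 * v) ^ k * (2 * v) ^ k) := by
  classical
  set P := Finset.univ.filter fun q : (Fin k ⊕ Fin k) × (Fin k ⊕ Fin k) =>
    finSumFinEquiv q.1 < finSumFinEquiv q.2 with hP
  let T : (Fin k ⊕ Fin k) × (Fin k ⊕ Fin k) → Finset ((Fin k ⊕ Fin k) → Fin v × Bool) := fun q =>
    Finset.univ.filter fun f => (f q.1).1 = (f q.2).1
  have h1 : (Finset.univ.filter fun p : Clause k v × Clause k v => ¬ Apart p.1 p.2).card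
      ≤ (P.biUnion T).card := by
    apply Finset.card_le_card_of_injOn (fun p => Sum.elim p.1 p.2)
    · intro p hp
      rw [Finset.mem_coe, Finset.mem_filter] at hp
      have hp2 := hp.2
      unfold Apart Function.Injective at hp2
      push Not at hp2
      obtain ⟨s, t, hst, hne⟩ := hp2
      rw [Finset.mem_coe, Finset.mem_biUnion]
      rcases lt_or_gt_of_ne (fun h => hne (finSumFinEquiv.injective h) :
        finSumFinEquiv s ≠ finSumFinEquiv t) with hlt | hlt
      · exact ⟨(s, t), by simp [hP, hlt], by simpa [T] using hst⟩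
      · exact ⟨(t, s), by simp [hP, hlt], by simpa [T] using hst.symm⟩
    · intro p _ q _ h
      have h2 : ∀ r, Sum.elim p.1 p.2 r = Sum.elim q.1 q.2 r := fun r => congrFun h r
      refine Prod.ext (funext fun r => ?_) (funext fun r => ?_)
      · exact h2 (Sum.inl r)
      · exact h2 (Sum.inr r)
  have h2 : v * (P.biUnion T).card ≤ P.card * Fintype.card ((Fin k ⊕ Fin k) → Fin v × Bool) := by
    calc v * (P.biUnion T).card ≤ v * ∑ q ∈ P, (T q).card :=
          Nat.mul_le_mul_left _ Finset.card_biUnion_le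
      _ = ∑ q ∈ P, v * (T q).card := by rw [Finset.mul_sum]
      _ = ∑ q ∈ P, Fintype.card ((Fin k ⊕ Fin k) → Fin v × Bool) := by
          apply Finset.sum_congr rfl
          intro q hq
          apply two_same
          intro h
          simp only [hP, Finset.mem_filter, Finset.mem_univ, true_and, h, lt_irrefl] at hq
      _ = _ := by rw [Finset.sum_const, smul_eq_mul]
  have h3 : Fintype.card ((Fin k ⊕ Fin k) → Fin v × Bool) = (2 * v) ^ k * (2 * v) ^ k := by
    rw [Fintype.card_fun, Fintype.card_sum, Fintype.card_fin, Fintype.card_prod, Fintype.card_fin,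
      Fintype.card_bool, pow_add, mul_comm v 2]
  have h4 := pairs_le k
  rw [← hP] at h4
  have h5 : P.card ≤ 2 * k ^ 2 := by nlinarith
  calc v * _ ≤ v * (P.biUnion T).card := Nat.mul_le_mul_left _ h1
    _ ≤ _ := h2
    _ = P.card * ((2 * v) ^ k * (2 * v) ^ k) := by rw [h3]
    _ ≤ _ := Nat.mul_le_mul_right _ h5

/-- Counting. With `N = (2 v)^k`, `a = |A|`, `b = |Aᶜ|`, `a + b = N`: the pairs on different sides
are `2 a b ≥ N^2 / c`; the pairs which are not `Apart` are at most `k (2k-1) N^2 / v ≤ N^2/(2c)`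
(union over two of the `2k` coordinates with the same variable: for fixed `s ≠ t` exactly
`N^2 / v` pairs). -/
theorem apart_count {k v c : ℕ} (hk : 1 ≤ k) (hc : 2 ≤ c) (hv : 4 * c * k ^ 2 ≤ v)
    (A : Set (Clause k v)) (h1 : (2 * v) ^ k ≤ c * A.ncard) (h2 : (2 * v) ^ k ≤ c * Aᶜ.ncard) :
    (2 * v) ^ k * (2 * v) ^ k ≤
      2 * c * {p : Clause k v × Clause k v | Apart p.1 p.2 ∧ ¬ (p.1 ∈ A ↔ p.2 ∈ A)}.ncard := by
  classical
  have hcard : Fintype.card (Clause k v) = (2 * v) ^ k := by
    rw [Fintype.card_fun, Fintype.card_fin, Fintype.card_prod, Fintype.card_fin,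
      Fintype.card_bool, mul_comm v 2]
  have hab : A.ncard + Aᶜ.ncard = (2 * v) ^ k := by
    rw [Set.ncard_add_ncard_compl, Nat.card_eq_fintype_card, hcard]
  have hv0 : 0 < v := by
    have : 0 < 4 * c * k ^ 2 := by positivity
    omega
  set N := (2 * v) ^ k with hN
  -- pairs on different sides
  have hD : 2 * (A.ncard * Aᶜ.ncard) ≤
      {p : Clause k v × Clause k v | ¬ (p.1 ∈ A ↔ p.2 ∈ A)}.ncard := by
    have hsub : (A ×ˢ Aᶜ) ∪ (Aᶜ ×ˢ A) ⊆ {p : Clause k v × Clause k v | ¬ (p.1 ∈ A ↔ p.2 ∈ A)} := by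
      rintro ⟨x, y⟩ (h | h)
      · rw [Set.mem_prod] at h
        intro hh
        exact h.2 (hh.1 h.1)
      · rw [Set.mem_prod] at h
        intro hh
        exact h.1 (hh.2 h.2)
    have hdis : Disjoint (A ×ˢ Aᶜ) (Aᶜ ×ˢ A) := by
      rw [Set.disjoint_left]
      rintro ⟨x, y⟩ h h'
      rw [Set.mem_prod] at h h'
      exact h'.1 h.1
    have h3 := Set.ncard_le_ncard hsub (Set.toFinite _)
    rw [Set.ncard_union_eq hdis (Set.toFinite _) (Set.toFinite _), Set.ncard_prod,
      Set.ncard_prod] at h3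
    calc 2 * (A.ncard * Aᶜ.ncard) = A.ncard * Aᶜ.ncard + Aᶜ.ncard * A.ncard := by ring
      _ ≤ _ := h3
  have hB : v * {p : Clause k v × Clause k v | ¬ Apart p.1 p.2}.ncard ≤ (2 * k ^ 2) * (N * N) := by
    have h3 := not_apart k v
    rw [Set.ncard_eq_toFinset_card']
    have h4 : {p : Clause k v × Clause k v | ¬ Apart p.1 p.2}.toFinset
        = Finset.univ.filter fun p : Clause k v × Clause k v => ¬ Apart p.1 p.2 := by
      ext p
      simp
    rw [h4]
    exact h3
  have hU : {p : Clause k v × Clause k v | ¬ (p.1 ∈ A ↔ p.2 ∈ A)}.ncard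
      ≤ {p : Clause k v × Clause k v | Apart p.1 p.2 ∧ ¬ (p.1 ∈ A ↔ p.2 ∈ A)}.ncard
        + {p : Clause k v × Clause k v | ¬ Apart p.1 p.2}.ncard := by
    refine (Set.ncard_le_ncard ?_ (Set.toFinite _)).trans (Set.ncard_union_le _ _)
    intro p hp
    by_cases h : Apart p.1 p.2
    · exact Or.inl ⟨h, hp⟩
    · exact Or.inr h
  set a := A.ncard
  set b := Aᶜ.ncard
  set D := {p : Clause k v × Clause k v | ¬ (p.1 ∈ A ↔ p.2 ∈ A)}.ncard
  set B := {p : Clause k v × Clause k v | ¬ Apart p.1 p.2}.ncard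
  set G := {p : Clause k v × Clause k v | Apart p.1 p.2 ∧ ¬ (p.1 ∈ A ↔ p.2 ∈ A)}.ncard
  have hcD : N * N ≤ c * D := by
    have h5 : N * N ≤ c * (2 * (a * b)) := by
      rcases Nat.le_total N (2 * a) with h | h
      · calc N * N ≤ (2 * a) * (c * b) := Nat.mul_le_mul h h2
          _ = c * (2 * (a * b)) := by ring
      · have hb : N ≤ 2 * b := by omega
        calc N * N ≤ (2 * b) * (c * a) := Nat.mul_le_mul hb h1
          _ = c * (2 * (a * b)) := by ring
    exact h5.trans (Nat.mul_le_mul_left _ hD)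
  have hcB : 2 * c * B ≤ N * N := by
    have h6 : v * (2 * c * B) ≤ v * (N * N) := by
      calc v * (2 * c * B) = 2 * c * (v * B) := by ring
        _ ≤ 2 * c * ((2 * k ^ 2) * (N * N)) := Nat.mul_le_mul_left _ hB
        _ = (4 * c * k ^ 2) * (N * N) := by ring
        _ ≤ v * (N * N) := Nat.mul_le_mul_right _ hv
    exact Nat.le_of_mul_le_mul_left h6 hv0
  have h7 : 2 * c * D ≤ 2 * c * G + 2 * c * B := by
    rw [← Nat.mul_add]
    exact Nat.mul_le_mul_left _ hU
  have h8 : 2 * (N * N) ≤ 2 * c * D := by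
    calc 2 * (N * N) ≤ 2 * (c * D) := Nat.mul_le_mul_left _ hcD
      _ = 2 * c * D := by ring
  omega

end Pool.Agent.TPC
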