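import Pool.Agent.Lib.TPC.Defs

namespace Pool.Agent.TPC

open Pool.Agent.AC0IP

/-- The symmetries act transitively on tuples of literals with different variables: extend the
partial injection of the variables to a permutation, choose the signs. -/
theorem sym_trans {v : ℕ} {I : Type} [Fintype I] (x y : I → Fin v × Bool)
    (hx : Function.Injective (fun i => (x i).1)) (hy : Function.Injective (fun i => (y i).1)) :
    ∃ σ : Sym v, ∀ i, σ.1 (x i) = y i := by
  classical
  let e : {a : Fin v // a ∈ Set.range (fun i => (x i).1)} ≃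
      {a : Fin v // a ∈ Set.range (fun i => (y i).1)} :=
    (Equiv.ofInjective _ hx).symm.trans (Equiv.ofInjective _ hy)
  let π : Equiv.Perm (Fin v) := e.extendSubtype
  have hπ : ∀ i, π (x i).1 = (y i).1 := by
    intro i
    have h1 : (x i).1 ∈ Set.range (fun i => (x i).1) := ⟨i, rfl⟩
    have h2 : π (x i).1 = e ⟨(x i).1, h1⟩ := Equiv.extendSubtype_apply_of_mem e _ h1
    rw [h2]
    have h3 : (Equiv.ofInjective _ hx).symm ⟨(x i).1, h1⟩ = i := by
      rw [Equiv.symm_apply_eq]
      rfl
    change ((Equiv.ofInjective _ hy) ((Equiv.ofInjective _ hx).symm ⟨(x i).1, h1⟩) : Fin v) = _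
    rw [h3]
    rfl
  let s : Fin v → Bool := fun a =>
    if h : ∃ i, (x i).1 = a then xor (x h.choose).2 (y h.choose).2 else false
  have hs : ∀ i, s (x i).1 = xor (x i).2 (y i).2 := by
    intro i
    have h : ∃ j, (x j).1 = (x i).1 := ⟨i, rfl⟩
    have h2 : h.choose = i := hx h.choose_spec
    simp only [s, dif_pos h, h2]
  let σ : Equiv.Perm (Fin v × Bool) :=
    { toFun := fun l => (π l.1, xor l.2 (s l.1))
      invFun := fun l => (π.symm l.1, xor l.2 (s (π.symm l.1)))
      left_inv := by
        rintro ⟨a, b⟩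
        simp
      right_inv := by
        rintro ⟨a, b⟩
        simp }
  refine ⟨⟨σ, ?_⟩, ?_⟩
  · intro l
    change (π l.1, xor (!l.2) (s l.1)) = (π l.1, !(xor l.2 (s l.1)))
    simp
  · intro i
    change (π (x i).1, xor (x i).2 (s (x i).1)) = y i
    rw [hπ, hs]
    ext
    · rfl
    · simp

/-- Symmetries keep the variables of a tuple different. -/
theorem sym_inj {v : ℕ} {I : Type} (σ : Sym v) (x : I → Fin v × Bool)
    (hx : Function.Injective (fun i => (x i).1)) :
    Function.Injective (fun i => (σ.1 (x i)).1) := by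
  intro i j hij
  have hij' : (σ.1 (x i)).1 = (σ.1 (x j)).1 := hij
  apply hx
  change (x i).1 = (x j).1
  by_cases h : (σ.1 (x i)).2 = (σ.1 (x j)).2
  · have h1 : σ.1 (x i) = σ.1 (x j) := Prod.ext hij' h
    rw [σ.1.injective h1]
  · have h1 : σ.1 (x i) = neg (σ.1 (x j)) := by
      refine Prod.ext hij' ?_
      change (σ.1 (x i)).2 = !(σ.1 (x j)).2
      revert h
      cases (σ.1 (x i)).2 <;> cases (σ.1 (x j)).2 <;> simp
    have h2 : neg (σ.1 (x j)) = σ.1 (neg (x j)) := (σ.2 (x j)).symm
    rw [h2] at h1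
    rw [σ.1.injective h1]
    rfl

end Pool.Agent.TPC
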