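import Pool.Agent.Lib.AC0IP.ExDefs

/-!
# Two-party counting schemes: definitions
-/

namespace Pool.Agent.TPC

open Pool.Agent.AC0IP

/-- `f` depends only on the input bits in `A`. -/
def OnBits {ι : Type} (A : Set ι) (f : (ι → Bool) → ℝ) : Prop :=
  ∀ x y : ι → Bool, (∀ i ∈ A, x i = y i) → f x = f y

/-- As a matrix, with the input bits in `A` as row index and the other input bits as column
index, `f` has rank at most `R`: it is a sum of `R` products of a function of the bits in `A` and
a function of the bits outside `A`. -/
def Split {ι : Type} (A : Set ι) (R : ℕ) (f : (ι → Bool) → ℝ) : Prop :=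
  ∃ a b : Fin R → (ι → Bool) → ℝ, (∀ i, OnBits A (a i)) ∧ (∀ i, OnBits Aᶜ (b i)) ∧
    ∀ x, f x = ∑ i, a i x * b i x

/-- For every witness `y` the predicate `pred y` (with values `0`, `1`), and the threshold, have
rank at most `R` as matrices (bits in `A`) × (bits outside `A`). -/
def TwoParty {ι : Type} (A : Set ι) (R : ℕ) (E : Counting ι) : Prop :=
  (∀ y, Split A R (fun x => if E.pred y x = true then 1 else 0)) ∧
    Split A R (fun x => (E.threshold x : ℝ))

/-- The variables of the gadget: slots `(r, i)` of the group `r`, copies of the slots of one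
group, auxiliary variables. -/
abbrev Vr (k g : ℕ) : Type := (Fin k × Fin g) ⊕ Fin g ⊕ (Fin k × Fin (g + 1))

/-- The clause of the tuple `τ`: the literals of the slots `(r, τ r)`; for `b = true` the slot of
the group `r₀` is replaced by its copy. -/
def pos {k v g : ℕ} (e : Vr k g → Fin v × Bool) (r₀ : Fin k) (b : Bool) (τ : Fin k → Fin g) :
    Clause k v :=
  fun r => if b = true ∧ r = r₀ then e (.inr (.inl (τ r))) else e (.inl (r, τ r))

/-- The opposite literal. -/
def neg {v : ℕ} (l : Fin v × Bool) : Fin v × Bool := (l.1, !l.2)

/-- The permutations of the literals which respect the opposite: permutations of the variables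
with sign changes. -/
def Sym (v : ℕ) : Subgroup (Equiv.Perm (Fin v × Bool)) where
  carrier := {σ | ∀ l, σ (neg l) = neg (σ l)}
  mul_mem' := by
    intro a b ha hb l
    have hb' : ∀ l, b (neg l) = neg (b l) := hb
    have ha' : ∀ l, a (neg l) = neg (a l) := ha
    show a (b (neg l)) = neg (a (b l))
    rw [hb', ha']
  one_mem' := by
    intro l
    rfl
  inv_mem' := by
    intro a ha l
    have ha' : ∀ l, a (neg l) = neg (a l) := ha
    show a⁻¹ (neg l) = neg (a⁻¹ l)
    rw [Equiv.Perm.inv_eq_iff_eq, ha']
    simp

/-- The number of the symmetries which put the clauses `x` and `y` on different sides. -/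
noncomputable def W {k v : ℕ} (A : Set (Clause k v)) (x y : Clause k v) : ℕ :=
  Nat.card {σ : Sym v // ¬ ((fun r => σ.1 (x r)) ∈ A ↔ (fun r => σ.1 (y r)) ∈ A)}

/-- All the variables of `x` and `y` are different. -/
def Apart {k v : ℕ} (x y : Clause k v) : Prop :=
  Function.Injective (fun t : Fin k ⊕ Fin k => (Sum.elim x y t).1)

end Pool.Agent.TPC
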