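import Pool.Agent.Lib.TPC.Defs

namespace Pool.Agent.TPC

open Pool.Agent.AC0IP

/-- clause with three given literals, the last one repeated -/
private def gcl {k v : ℕ} (a b c : Fin v × Bool) : Clause k v :=
  fun t => if t.val = 0 then a else if t.val = 1 then b else c

private theorem sat_gcl {k v : ℕ} (hk : 3 ≤ k) (y : Fin v → Bool) (a b c : Fin v × Bool) :
    (∃ t, y ((gcl a b c : Clause k v) t).1 = ((gcl a b c : Clause k v) t).2) ↔
      y a.1 = a.2 ∨ y b.1 = b.2 ∨ y c.1 = c.2 := by
  constructor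
  · rintro ⟨t, ht⟩
    unfold gcl at ht
    by_cases h0 : t.val = 0
    · rw [if_pos h0] at ht
      exact Or.inl ht
    · rw [if_neg h0] at ht
      by_cases h1 : t.val = 1
      · rw [if_pos h1] at ht
        exact Or.inr (Or.inl ht)
      · rw [if_neg h1] at ht
        exact Or.inr (Or.inr ht)
  · rintro (h | h | h)
    · exact ⟨⟨0, by omega⟩, h⟩
    · refine ⟨⟨1, by omega⟩, ?_⟩
      unfold gcl
      simpa using h
    · refine ⟨⟨2, by omega⟩, ?_⟩
      unfold gcl
      simpa using h

private theorem true_neg {v : ℕ} (y : Fin v → Bool) (l : Fin v × Bool) :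
    y (neg l).1 = (neg l).2 ↔ ¬ y l.1 = l.2 := by
  unfold neg
  cases h : y l.1 <;> cases h2 : l.2 <;> simp [h]

private theorem chain {g : ℕ} (P : Fin (g + 1) → Prop) (h0 : P 0) (h1 : ¬ P (Fin.last g)) :
    ∃ i : Fin g, P i.castSucc ∧ ¬ P i.succ := by
  by_contra h
  push Not at h
  exact h1 (Fin.induction (motive := P) h0 (fun i hi => h i hi) (Fin.last g))

/-- Gadget. `e` names literals with different variables. A slot is SELECTED if its literal is
FALSE. `Fix` (write `s r i = e (inl (r,i))`, `c i = e (inr (inl i))`, `a r i = e (inr (inr (r,i)))`,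
3 literals padded to `k`): `a r 0`; `neg (a r (last g))`; `neg (a r i) ∨ neg (s r i) ∨ a r (i+1)`
(so some slot of every group is selected); `s r₀ i ∨ neg (c i)` (the copy of a selected slot is
selected). Satisfiable: the assignment selects some tuple `τ`, which falsifies `pos e r₀ b τ` for
both `b`. Conversely, for `τ` without `Q τ b` select exactly `τ` (and its copy), `a r i` true iff
`i ≤ τ r`. (No injectivity of `pos` is needed.) Compare Lib/AC0IP/Red.lean (cl3, sat_cl3). -/
theorem gadget {k v g : ℕ} (hk : 3 ≤ k) (r₀ : Fin k) (e : Vr k g → Fin v × Bool)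
    (he : Function.Injective (fun x => (e x).1)) :
    ∃ Fix : Clause k v → Prop, ∀ (Q : (Fin k → Fin g) → Bool → Prop) (z : Clause k v → Bool),
      (∀ cl, z cl = true ↔ Fix cl ∨ ∃ τ b, Q τ b ∧ cl = pos e r₀ b τ) →
      (Satisfiable z ↔ ∃ τ, ∀ b, ¬ Q τ b) := by
  refine ⟨fun cl =>
    (∃ r, cl = gcl (e (.inr (.inr (r, 0)))) (e (.inr (.inr (r, 0)))) (e (.inr (.inr (r, 0))))) ∨
    (∃ r, cl = gcl (neg (e (.inr (.inr (r, Fin.last g))))) (neg (e (.inr (.inr (r, Fin.last g)))))
      (neg (e (.inr (.inr (r, Fin.last g)))))) ∨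
    (∃ (r : Fin k) (i : Fin g), cl = gcl (neg (e (.inr (.inr (r, i.castSucc)))))
      (neg (e (.inl (r, i)))) (e (.inr (.inr (r, i.succ))))) ∨
    (∃ i : Fin g, cl = gcl (e (.inl (r₀, i))) (neg (e (.inr (.inl i))))
      (neg (e (.inr (.inl i))))), ?_⟩
  intro Q z hz
  constructor
  · rintro ⟨y, hy⟩
    have hF : ∀ a b c : Fin v × Bool, z (gcl a b c) = true →
        y a.1 = a.2 ∨ y b.1 = b.2 ∨ y c.1 = c.2 := fun a b c h =>
      (sat_gcl hk y a b c).1 (hy _ h)
    have h0 : ∀ r, y (e (.inr (.inr (r, 0)))).1 = (e (.inr (.inr (r, 0)))).2 := by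
      intro r
      rcases hF _ _ _ ((hz _).2 (Or.inl (Or.inl ⟨r, rfl⟩))) with h | h | h <;> exact h
    have h1 : ∀ r, ¬ y (e (.inr (.inr (r, Fin.last g)))).1 =
        (e (.inr (.inr (r, Fin.last g)))).2 := by
      intro r
      rcases hF _ _ _ ((hz _).2 (Or.inl (Or.inr (Or.inl ⟨r, rfl⟩)))) with h | h | h <;>
        exact (true_neg y _).1 h
    have h2 : ∀ r, ∃ i : Fin g, ¬ y (e (.inl (r, i))).1 = (e (.inl (r, i))).2 := by
      intro r
      obtain ⟨i, hi1, hi2⟩ := chain
        (fun i => y (e (.inr (.inr (r, i)))).1 = (e (.inr (.inr (r, i)))).2) (h0 r) (h1 r)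
      refine ⟨i, ?_⟩
      rcases hF _ _ _ ((hz _).2 (Or.inl (Or.inr (Or.inr (Or.inl ⟨r, i, rfl⟩))))) with h | h | h
      · exact absurd hi1 ((true_neg y _).1 h)
      · exact (true_neg y _).1 h
      · exact absurd h hi2
    choose τ hτ using h2
    refine ⟨τ, fun b hQ => ?_⟩
    obtain ⟨r, hr⟩ := hy _ ((hz (pos e r₀ b τ)).2 (Or.inr ⟨τ, b, hQ, rfl⟩))
    unfold pos at hr
    by_cases hb : b = true ∧ r = r₀
    · rw [if_pos hb] at hr
      obtain ⟨-, rfl⟩ := hb
      rcases hF _ _ _ ((hz _).2 (Or.inl (Or.inr (Or.inr (Or.inr ⟨τ r, rfl⟩))))) with h | h | h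
      · exact hτ r h
      · exact (true_neg y _).1 h hr
      · exact (true_neg y _).1 h hr
    · rw [if_neg hb] at hr
      exact hτ r hr
  · rintro ⟨τ, hτ⟩
    obtain ⟨val, hval⟩ : ∃ val : Vr k g → Bool, val = fun x => match x with
        | .inl (r, i) => decide (i ≠ τ r)
        | .inr (.inl i) => decide (i ≠ τ r₀)
        | .inr (.inr (r, i)) => decide (i.val ≤ (τ r).val) := ⟨_, rfl⟩
    have hs : ∀ r i, val (.inl (r, i)) = true ↔ i ≠ τ r := by
      intro r i
      rw [hval]
      simp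
    have hc : ∀ i, val (.inr (.inl i)) = true ↔ i ≠ τ r₀ := by
      intro i
      rw [hval]
      simp
    have ha : ∀ r i, val (.inr (.inr (r, i))) = true ↔ i.val ≤ (τ r).val := by
      intro r i
      rw [hval]
      simp
    let y : Fin v → Bool := Function.extend (fun x => (e x).1)
      (fun x => if val x = true then (e x).2 else !(e x).2) (fun _ => false)
    have hy : ∀ x, y (e x).1 = (e x).2 ↔ val x = true := by
      intro x
      have h1 : y (e x).1 = if val x = true then (e x).2 else !(e x).2 :=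
        he.extend_apply _ _ x
      rw [h1]
      by_cases h : val x = true
      · simp [h]
      · rw [if_neg h]
        cases h2 : (e x).2 <;> simp [h]
    refine ⟨y, fun cl hcl => ?_⟩
    rcases (hz cl).1 hcl with (⟨r, rfl⟩ | ⟨r, rfl⟩ | ⟨r, i, rfl⟩ | ⟨i, rfl⟩) | ⟨τ', b, hQ, rfl⟩
    · rw [sat_gcl hk]
      left
      rw [hy, ha]
      exact Nat.zero_le _
    · rw [sat_gcl hk]
      left
      rw [true_neg, hy, ha, Fin.val_last]
      exact not_le.2 (τ r).isLt
    · rw [sat_gcl hk, true_neg, true_neg, hy, hy, hy, ha, hs, ha]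
      by_cases h1 : i = τ r
      · right; left
        exact not_not.2 h1
      · have h1' : i.val ≠ (τ r).val := fun h => h1 (Fin.ext h)
        rw [Fin.val_castSucc, Fin.val_succ]
        omega
    · rw [sat_gcl hk, true_neg, hy, hy, hs, hc]
      tauto
    · have hne : τ' ≠ τ := by
        rintro rfl
        exact hτ b hQ
      obtain ⟨r, hr⟩ := Function.ne_iff.1 hne
      refine ⟨r, ?_⟩
      unfold pos
      by_cases hb : b = true ∧ r = r₀
      · rw [if_pos hb, hy, hc]
        obtain ⟨-, rfl⟩ := hb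
        exact hr
      · rw [if_neg hb, hy, hs]
        exact hr

end Pool.Agent.TPC
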