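import Pool.Agent.Lib.TPC.LowCore
import Pool.Agent.Lib.TPC.Avg

namespace Pool.Agent.TPC

open Pool.Agent.AC0IP

/-- The lower bound: `g = (v - k) / (2 k + 1)`, the averaging lemma and the core. -/
theorem low {k v c : ℕ} (hk : 3 ≤ k) (hc : 2 ≤ c) (hv : 4 * c * k ^ 2 ≤ v)
    (A : Set (Clause k v)) (h1 : (2 * v) ^ k ≤ c * A.ncard) (h2 : (2 * v) ^ k ≤ c * Aᶜ.ncard)
    (R : ℕ) (E : Counting (Clause k v)) (hE : TwoParty A R E) (hS : E.Exactly (SAT k v)) :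
    v ^ k ≤ 2 * c * k * (2 * k + 2) ^ k * (E.len + 1 + Nat.clog 2 R) := by
  have hv8 : 8 * k ^ 2 ≤ v := le_trans (Nat.mul_le_mul_right _ (by omega)) hv
  have hv6 : 6 * k ^ 2 + 6 * k ≤ v := by nlinarith
  have hkv : k ≤ v := by nlinarith
  obtain ⟨g, hg⟩ : ∃ g, g = (v - k) / (2 * k + 1) := ⟨_, rfl⟩
  have hg1 : (2 * k + 1) * g + k ≤ v := by
    have := Nat.mul_div_le (v - k) (2 * k + 1)
    rw [← hg] at this
    omega
  have hg2 : v ≤ (2 * k + 2) * g := by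
    have h3 : v - k < (2 * k + 1) * (g + 1) := by
      rw [hg]
      exact Nat.lt_mul_div_succ _ (by omega)
    have h4 : v - k + k = v := Nat.sub_add_cancel hkv
    nlinarith
  obtain ⟨r₀, e, he, hm⟩ := avg (by omega) hc hv hg1 A h1 h2
  have hcore := low_core hk A r₀ e he R E hE hS
  set m := {τ : Fin k → Fin g | ¬ (pos e r₀ false τ ∈ A ↔ pos e r₀ true τ ∈ A)}.ncard with hm'
  have h5 : m ≤ E.len + 1 + Nat.clog 2 R := by
    have h6 : (2 ^ E.len + 1) * R ≤ 2 ^ (E.len + 1 + Nat.clog 2 R) := by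
      have h7 : R ≤ 2 ^ Nat.clog 2 R := Nat.le_pow_clog (by norm_num) R
      have h8 : 2 ^ E.len + 1 ≤ 2 ^ (E.len + 1) := by
        have := Nat.one_le_two_pow (n := E.len)
        rw [pow_succ]
        omega
      calc (2 ^ E.len + 1) * R ≤ 2 ^ (E.len + 1) * 2 ^ Nat.clog 2 R := Nat.mul_le_mul h8 h7
        _ = 2 ^ (E.len + 1 + Nat.clog 2 R) := (pow_add _ _ _).symm
    exact (Nat.pow_le_pow_iff_right (by norm_num : 1 < 2)).1 (le_trans hcore h6)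
  calc v ^ k ≤ ((2 * k + 2) * g) ^ k := Nat.pow_le_pow_left hg2 k
    _ = (2 * k + 2) ^ k * g ^ k := mul_pow _ _ _
    _ ≤ (2 * k + 2) ^ k * (2 * c * k * m) := Nat.mul_le_mul_left _ hm
    _ = 2 * c * k * (2 * k + 2) ^ k * m := by ring
    _ ≤ 2 * c * k * (2 * k + 2) ^ k * (E.len + 1 + Nat.clog 2 R) := Nat.mul_le_mul_left _ h5

end Pool.Agent.TPC
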