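import Pool.Agent.Lib.TPC.Rank
import Pool.Agent.Lib.TPC.Gad

namespace Pool.Agent.TPC

open Pool.Agent.AC0IP

/-- A scheme and a gadget with a set of tuples whose two clauses lie on different sides. -/
theorem low_core {k v g : ℕ} (hk : 3 ≤ k) (A : Set (Clause k v)) (r₀ : Fin k)
    (e : Vr k g → Fin v × Bool) (he : Function.Injective (fun x => (e x).1)) (R : ℕ)
    (E : Counting (Clause k v)) (hE : TwoParty A R E) (hS : E.Exactly (SAT k v)) :
    2 ^ {τ : Fin k → Fin g | ¬ (pos e r₀ false τ ∈ A ↔ pos e r₀ true τ ∈ A)}.ncard ≤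
      (2 ^ E.len + 1) * R := by
  classical
  obtain ⟨Fix, hFix⟩ := gadget hk r₀ e he
  set C : Set (Fin k → Fin g) :=
    {τ | ¬ (pos e r₀ false τ ∈ A ↔ pos e r₀ true τ ∈ A)} with hC
  obtain ⟨hE1, at', bt, hta, htb, ht⟩ := hE
  choose aw bw hwa hwb hw0 using hE1
  have hw : ∀ (w : Fin E.len → Bool) (x : Clause k v → Bool),
      (if E.pred w x = true then (1 : ℝ) else 0) = ∑ i, aw w i x * bw w i x := hw0
  have ht' : ∀ x : Clause k v → Bool, (E.threshold x : ℝ) = ∑ i, at' i x * bt i x := ht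
  let Q : (C → Bool) → (C → Bool) → (Fin k → Fin g) → Bool → Prop := fun x y τ b =>
    if h : τ ∈ C then (if pos e r₀ b τ ∈ A then x ⟨τ, h⟩ = true else y ⟨τ, h⟩ = true)
    else b = false
  let z : (C → Bool) → (C → Bool) → Clause k v → Bool := fun x y cl =>
    decide (Fix cl ∨ ∃ τ b, Q x y τ b ∧ cl = pos e r₀ b τ)
  have hz : ∀ x y cl, z x y cl = true ↔ Fix cl ∨ ∃ τ b, Q x y τ b ∧ cl = pos e r₀ b τ :=
    fun x y cl => decide_eq_true_iff
  have hSat : ∀ x y, Satisfiable (z x y) ↔ ∃ t, x t = false ∧ y t = false := by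
    intro x y
    rw [hFix (Q x y) (z x y) (hz x y)]
    constructor
    · rintro ⟨τ, h⟩
      by_cases hτ : τ ∈ C
      · refine ⟨⟨τ, hτ⟩, ?_⟩
        have h0 := h false
        have h1 := h true
        simp only [Q, dif_pos hτ] at h0 h1
        have hd : ¬ (pos e r₀ false τ ∈ A ↔ pos e r₀ true τ ∈ A) := hτ
        by_cases ha : pos e r₀ false τ ∈ A
        · have hb : pos e r₀ true τ ∉ A := fun hb => hd ⟨fun _ => hb, fun _ => ha⟩
          rw [if_pos ha] at h0
          rw [if_neg hb] at h1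
          exact ⟨by simpa using h0, by simpa using h1⟩
        · have hb : pos e r₀ true τ ∈ A := by
            by_contra hb
            exact hd ⟨fun h => absurd h ha, fun h => absurd h hb⟩
          rw [if_neg ha] at h0
          rw [if_pos hb] at h1
          exact ⟨by simpa using h1, by simpa using h0⟩
      · exfalso
        apply h false
        simp only [Q, dif_neg hτ]
    · rintro ⟨t, hx, hy⟩
      refine ⟨t.1, fun b => ?_⟩
      simp only [Q, dif_pos t.2]
      by_cases ha : pos e r₀ b t.1 ∈ A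
      · rw [if_pos ha, hx]
        simp
      · rw [if_neg ha, hy]
        simp
  have hzA : ∀ x y y', ∀ cl ∈ A, z x y cl = z x y' cl := by
    intro x y y' cl hcl
    have h1 : ∀ τ b, cl = pos e r₀ b τ → (Q x y τ b ↔ Q x y' τ b) := by
      intro τ b hb
      rw [hb] at hcl
      simp only [Q]
      by_cases hτ : τ ∈ C
      · rw [dif_pos hτ, dif_pos hτ, if_pos hcl, if_pos hcl]
      · rw [dif_neg hτ, dif_neg hτ]
    rw [Bool.eq_iff_iff, hz, hz]
    constructor
    · rintro (h | ⟨τ, b, h, h'⟩)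
      · exact Or.inl h
      · exact Or.inr ⟨τ, b, (h1 τ b h').1 h, h'⟩
    · rintro (h | ⟨τ, b, h, h'⟩)
      · exact Or.inl h
      · exact Or.inr ⟨τ, b, (h1 τ b h').2 h, h'⟩
  have hzB : ∀ x x' y, ∀ cl ∈ Aᶜ, z x y cl = z x' y cl := by
    intro x x' y cl hcl
    have h1 : ∀ τ b, cl = pos e r₀ b τ → (Q x y τ b ↔ Q x' y τ b) := by
      intro τ b hb
      rw [hb] at hcl
      have hcl' : pos e r₀ b τ ∉ A := hcl
      simp only [Q]
      by_cases hτ : τ ∈ C
      · rw [dif_pos hτ, dif_pos hτ, if_neg hcl', if_neg hcl']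
      · rw [dif_neg hτ, dif_neg hτ]
    rw [Bool.eq_iff_iff, hz, hz]
    constructor
    · rintro (h | ⟨τ, b, h, h'⟩)
      · exact Or.inl h
      · exact Or.inr ⟨τ, b, (h1 τ b h').1 h, h'⟩
    · rintro (h | ⟨τ, b, h, h'⟩)
      · exact Or.inl h
      · exact Or.inr ⟨τ, b, (h1 τ b h').2 h, h'⟩
  let o : C → Bool := fun _ => false
  let a : ((Fin E.len → Bool) ⊕ Unit) × Fin R → (C → Bool) → ℝ := fun p x =>
    Sum.elim (fun w => aw w p.2 (z x o)) (fun _ => - at' p.2 (z x o)) p.1
  let b : ((Fin E.len → Bool) ⊕ Unit) × Fin R → (C → Bool) → ℝ := fun p y =>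
    Sum.elim (fun w => bw w p.2 (z o y)) (fun _ => bt p.2 (z o y)) p.1
  have hsum : ∀ x y, ∑ p, a p x * b p y = (E.count (z x y) : ℝ) - E.threshold (z x y) := by
    intro x y
    rw [Fintype.sum_prod_type, Fintype.sum_sum_type]
    have e1 : ∀ w : Fin E.len → Bool, ∑ i, a (Sum.inl w, i) x * b (Sum.inl w, i) y =
        if E.pred w (z x y) = true then (1 : ℝ) else 0 := by
      intro w
      rw [hw w (z x y)]
      refine Finset.sum_congr rfl fun i _ => ?_
      show aw w i (z x o) * bw w i (z o y) = _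
      rw [hwa w i (z x o) (z x y) (hzA x o y), hwb w i (z o y) (z x y) (hzB o x y)]
    have e2 : ∑ i, a (Sum.inr (), i) x * b (Sum.inr (), i) y = - (E.threshold (z x y) : ℝ) := by
      rw [ht' (z x y), ← Finset.sum_neg_distrib]
      refine Finset.sum_congr rfl fun i _ => ?_
      show - at' i (z x o) * bt i (z o y) = _
      rw [hta i (z x o) (z x y) (hzA x o y), htb i (z o y) (z x y) (hzB o x y)]
      ring
    have e5 : (∑ u : Unit, ∑ i, a (Sum.inr u, i) x * b (Sum.inr u, i) y) =
        - (E.threshold (z x y) : ℝ) := by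
      rw [← e2]
      exact Fintype.sum_unique _
    rw [Finset.sum_congr rfl (fun w _ => e1 w), e5]
    have e3 : ∑ w : Fin E.len → Bool, (if E.pred w (z x y) = true then (1 : ℝ) else 0) =
        (E.count (z x y) : ℝ) := by
      rw [Finset.sum_boole]
      unfold Counting.count
      rw [Nat.card_eq_fintype_card, Fintype.card_subtype]
    rw [e3]
    ring
  have h0 : ∀ x y : C → Bool, (∑ p, a p x * b p y = 0) ↔ ∃ t, x t = false ∧ y t = false := by
    intro x y
    rw [hsum, ← hSat x y, sub_eq_zero]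
    have h1 := hS (z x y)
    constructor
    · intro h
      exact h1.2 (by exact_mod_cast h)
    · intro h
      exact_mod_cast h1.1 h
  have h2 := rank_bound a b h0
  rw [Fintype.card_prod, Fintype.card_sum, Fintype.card_fun, Fintype.card_fin, Fintype.card_bool,
    Fintype.card_unit, Fintype.card_fin] at h2
  rw [← Nat.card_coe_set_eq, Nat.card_eq_fintype_card]
  exact h2

end Pool.Agent.TPC
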