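import Pool.Agent.Lib.TPC.Defs

namespace Pool.Agent.TPC

/-- a square matrix indexed by the subsets of `T`, with nonzero diagonal, which is zero at `(x, y)`
unless `y ≤ x`, has full rank -/
theorem rank_triangular {T : Type} [Fintype T] [DecidableEq T]
    (M : Matrix (T → Bool) (T → Bool) ℝ) (hd : ∀ x, M x x ≠ 0)
    (h0 : ∀ x y, ¬ y ≤ x → M x y = 0) : M.rank = 2 ^ Fintype.card T := by
  classical
  have hinj : Function.Injective M.mulVec := by
    rw [← Matrix.coe_mulVecLin, injective_iff_map_eq_zero]
    intro c hc
    by_contra hne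
    have hex : ∃ x, c x ≠ 0 := by
      by_contra hcon
      push Not at hcon
      exact hne (funext hcon)
    obtain ⟨x, hx, hmin⟩ := Finset.exists_minimal
      (s := Finset.univ.filter (fun x : T → Bool => c x ≠ 0))
      (by obtain ⟨x, hx⟩ := hex; exact ⟨x, by simpa using hx⟩)
    have hx' : c x ≠ 0 := by simpa using hx
    have h1 := congrFun hc x
    rw [Matrix.mulVecLin_apply] at h1
    have h2 : M.mulVec c x = M x x * c x := by
      change (∑ y, M x y * c y) = _
      refine Finset.sum_eq_single x ?_ (by simp)
      intro y _ hy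
      by_cases hyx : y ≤ x
      · by_cases hcy : c y = 0
        · rw [hcy, mul_zero]
        · have h3 := hmin (show y ∈ Finset.univ.filter (fun x : T → Bool => c x ≠ 0) by
            simpa using hcy) hyx
          exact absurd (le_antisymm hyx h3) hy
      · rw [h0 x y hyx, zero_mul]
    rw [h2] at h1
    exact mul_ne_zero (hd x) hx' h1
  have h1 : Module.finrank ℝ (LinearMap.range M.mulVecLin) =
      Module.finrank ℝ ((T → Bool) → ℝ) :=
    LinearMap.finrank_range_of_inj hinj
  rw [Matrix.rank, h1, Module.finrank_fintype_fun_eq_card, Fintype.card_fun, Fintype.card_bool]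

/-- Rank lemma. `M x y = ∑ a i x * b i (complement of y)` is zero iff `y` is not contained in
`x`, so it is triangular with nonzero diagonal: `M = P * Q`, `2 ^ |T| = rank M ≤ |I|`
(`Matrix.rank_mul_le_left`, `Matrix.rank_le_card_width`). -/
theorem rank_bound {T I : Type} [Fintype T] [Fintype I] (a b : I → (T → Bool) → ℝ)
    (h : ∀ x y : T → Bool, (∑ i, a i x * b i y = 0) ↔ ∃ t, x t = false ∧ y t = false) :
    2 ^ Fintype.card T ≤ Fintype.card I := by
  classical
  let P : Matrix (T → Bool) I ℝ := fun x i => a i x
  let Q : Matrix I (T → Bool) ℝ := fun i y => b i (fun t => !y t)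
  have hM : ∀ x y, (P * Q) x y = ∑ i, a i x * b i (fun t => !y t) := by
    intro x y
    rfl
  have h1 : (P * Q).rank = 2 ^ Fintype.card T := by
    refine rank_triangular _ ?_ ?_
    · intro x hx
      rw [hM, h] at hx
      obtain ⟨t, h1, h2⟩ := hx
      simp [h1] at h2
    · intro x y hxy
      rw [hM, h]
      rw [Pi.le_def] at hxy
      obtain ⟨t, ht⟩ := not_forall.1 hxy
      refine ⟨t, ?_, ?_⟩
      · cases hx : x t
        · rfl
        · exact absurd (by rw [hx]; exact Bool.le_true _) ht
      · cases hy : y t
        · exact absurd (by rw [hy]; exact Bool.false_le _) ht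
        · rfl
  rw [← h1]
  exact (Matrix.rank_mul_le_left P Q).trans (Matrix.rank_le_card_width P)

end Pool.Agent.TPC
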