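import Pool.Agent.Lib.TPC.Defs

namespace Pool.Agent.TPC

open Pool.Agent.AC0IP

private lemma split_forall {ι : Type} (A : Set ι) (c : ℝ) (Q : ι → Bool → Prop)
    (f : (ι → Bool) → ℝ) (h1 : ∀ x, (∀ i, Q i (x i)) → f x = c)
    (h0 : ∀ x, ¬ (∀ i, Q i (x i)) → f x = 0) : Split A 1 f := by
  classical
  refine ⟨fun _ x => if (∀ i ∈ A, Q i (x i)) then c else 0,
    fun _ x => if (∀ i ∈ Aᶜ, Q i (x i)) then 1 else 0, ?_, ?_, ?_⟩
  · intro _ x y hxy
    have : (∀ i ∈ A, Q i (x i)) ↔ (∀ i ∈ A, Q i (y i)) :=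
      forall₂_congr fun i hi => by rw [hxy i hi]
    simp only [this]
  · intro _ x y hxy
    have : (∀ i ∈ Aᶜ, Q i (x i)) ↔ (∀ i ∈ Aᶜ, Q i (y i)) :=
      forall₂_congr fun i hi => by rw [hxy i hi]
    simp only [this]
  · intro x
    rw [Fin.sum_univ_one]
    show f x = (if (∀ i ∈ A, Q i (x i)) then c else 0) *
      (if (∀ i ∈ Aᶜ, Q i (x i)) then 1 else 0)
    by_cases hA : ∀ i ∈ A, Q i (x i)
    · by_cases hB : ∀ i ∈ Aᶜ, Q i (x i)
      · rw [if_pos hA, if_pos hB, mul_one]
        refine h1 x fun i => ?_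
        by_cases hi : i ∈ A
        · exact hA i hi
        · exact hB i hi
      · rw [if_neg hB, mul_zero]
        exact h0 x fun h => hB fun i _ => h i
    · rw [if_neg hA, zero_mul]
      exact h0 x fun h => hA fun i _ => h i

private lemma split_const {ι : Type} (A : Set ι) (c : ℝ) (f : (ι → Bool) → ℝ)
    (h : ∀ x, f x = c) : Split A 1 f :=
  split_forall A c (fun _ _ => True) f (fun x _ => h x) (fun _ hx => (hx fun _ => trivial).elim)

theorem up_sat (k v : ℕ) (A : Set (Clause k v)) :
    ∃ E : Counting (Clause k v), E.len = v ∧ TwoParty A 1 E ∧ (∀ z, E.threshold z = 1) ∧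
      E.AtLeast (SAT k v) := by
  classical
  let E : Counting (Clause k v) :=
    { len := v
      pred := fun y z => decide (∀ cl, z cl = true → ∃ j, y (cl j).1 = (cl j).2)
      digit := fun i _ => decide (i.val = 0) }
  have hth : ∀ z, E.threshold z = 1 := by
    intro z
    show (∑ i : Fin (v + 1), if decide (i.val = 0) = true then 2 ^ i.val else 0) = 1
    rw [Fin.sum_univ_succ]
    simp
  refine ⟨E, rfl, ⟨fun y => ?_, ?_⟩, hth, ?_⟩
  · refine split_forall A 1 (fun cl b => b = true → ∃ j, y (cl j).1 = (cl j).2) _ ?_ ?_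
    · intro z hz
      exact if_pos (decide_eq_true hz)
    · intro z hz
      exact if_neg fun h => hz (of_decide_eq_true h)
  · exact split_const A 1 _ fun x => by rw [hth]; norm_num
  · intro z
    rw [hth]
    show Satisfiable z ↔ 1 ≤ Nat.card {y : Fin v → Bool // E.pred y z = true}
    rw [Nat.one_le_iff_ne_zero, ← Nat.pos_iff_ne_zero, Finite.card_pos_iff]
    constructor
    · rintro ⟨y, hy⟩
      exact ⟨⟨y, decide_eq_true hy⟩⟩
    · rintro ⟨⟨y, hy⟩⟩
      exact ⟨y, of_decide_eq_true hy⟩

theorem up_unsat (k v : ℕ) (A : Set (Clause k v)) :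
    ∃ E : Counting (Clause k v), E.len = v ∧ TwoParty A 1 E ∧ (∀ z, E.threshold z = 0) ∧
      E.Exactly (UNSAT k v) := by
  classical
  let E : Counting (Clause k v) :=
    { len := v
      pred := fun y z => decide (∀ cl, z cl = true → ∃ j, y (cl j).1 = (cl j).2)
      digit := fun _ _ => false }
  have hth : ∀ z, E.threshold z = 0 := by
    intro z
    show (∑ i : Fin (v + 1), if false = true then 2 ^ i.val else 0) = 0
    simp
  refine ⟨E, rfl, ⟨fun y => ?_, ?_⟩, hth, ?_⟩
  · refine split_forall A 1 (fun cl b => b = true → ∃ j, y (cl j).1 = (cl j).2) _ ?_ ?_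
    · intro z hz
      exact if_pos (decide_eq_true hz)
    · intro z hz
      exact if_neg fun h => hz (of_decide_eq_true h)
  · exact split_const A 0 _ fun x => by rw [hth]; norm_num
  · intro z
    rw [hth]
    show ¬ Satisfiable z ↔ Nat.card {y : Fin v → Bool // E.pred y z = true} = 0
    rw [Finite.card_eq_zero_iff, ← not_nonempty_iff, not_iff_not]
    constructor
    · rintro ⟨y, hy⟩
      exact ⟨⟨y, decide_eq_true hy⟩⟩
    · rintro ⟨⟨y, hy⟩⟩
      exact ⟨y, of_decide_eq_true hy⟩

theorem up_all {ι : Type} [Fintype ι] (A : Set ι) (L : Set (ι → Bool)) :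
    ∃ E : Counting ι, E.len = Fintype.card ι ∧ TwoParty A 1 E ∧ (∀ z, E.threshold z = 0) ∧
      E.Exactly L := by
  classical
  let e : ι ≃ Fin (Fintype.card ι) := Fintype.equivFin ι
  let E : Counting ι :=
    { len := Fintype.card ι
      pred := fun y z => decide ((∀ i, z i = y (e i)) ∧ z ∉ L)
      digit := fun _ _ => false }
  have hth : ∀ z, E.threshold z = 0 := by
    intro z
    show (∑ i : Fin (Fintype.card ι + 1), if false = true then 2 ^ i.val else 0) = 0
    simp
  refine ⟨E, rfl, ⟨fun y => ?_, ?_⟩, hth, ?_⟩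
  · by_cases hy : (fun i => y (e i)) ∈ L
    · refine split_const A 0 _ fun z => if_neg fun h => ?_
      obtain ⟨h1, h2⟩ := of_decide_eq_true h
      have : z = fun i => y (e i) := funext h1
      rw [this] at h2
      exact h2 hy
    · refine split_forall A 1 (fun i b => b = y (e i)) _ ?_ ?_
      · intro z hz
        have : z = fun i => y (e i) := funext hz
        exact if_pos (decide_eq_true ⟨hz, by rw [this]; exact hy⟩)
      · intro z hz
        exact if_neg fun h => hz (of_decide_eq_true h).1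
  · exact split_const A 0 _ fun x => by rw [hth]; norm_num
  · intro z
    rw [hth]
    show z ∈ L ↔ Nat.card {y : Fin (Fintype.card ι) → Bool // E.pred y z = true} = 0
    rw [Finite.card_eq_zero_iff, ← not_nonempty_iff]
    constructor
    · rintro hz ⟨⟨y, hy⟩⟩
      exact (of_decide_eq_true hy).2 hz
    · intro h
      by_contra hz
      refine h ⟨⟨fun j => z (e.symm j), decide_eq_true ⟨fun i => ?_, hz⟩⟩⟩
      show z i = z (e.symm (e i))
      rw [e.symm_apply_apply]

end Pool.Agent.TPC
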